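import Pool.Agent.Lib.MP_4bbdcb_gt.HMain

namespace Pool.Agent.Results.MP_4bbdcb_gt.WhitneyProperty

open Pool.Agent.Lib.MP_4bbdcb_gt.Hd

theorem result (X : Type) [MetricSpace X] (hX : WeaklyChainable X) (μ : CX X → ℝ)
    (hμ : IsWhitney μ) (T : CX X) (hT : (T.1 : Set X) = Set.univ) (t : ℝ)
    (ht : t ∈ Set.Icc 0 (μ T)) : WeaklyChainable (μ ⁻¹' {t}) :=
  main X hX μ hμ T hT t ht

end Pool.Agent.Results.MP_4bbdcb_gt.WhitneyProperty
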